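import Pool.Agent.W135.RT.Par6b

/-!
# Project EC (helper870), part CARD2: the number of the curves with full 2-torsion
-/

set_option autoImplicit false
set_option linter.all false

namespace Pool.Agent.N756.EC

open Finset Pool.Agent.W307.RT Pool.Agent.W135.RT

theorem two_roots {A B : ℤ} (hT : HasT 2 (Sh A B)) : ∃ i j : ℤ,
    A = -(i ^ 2 + i * j + j ^ 2) ∧ B = i * j * (i + j) := by
  obtain ⟨P, Q, hP, hQ, hQP⟩ := hT
  obtain ⟨e1, he1, hPe1, h1⟩ := ord2 _ hP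
  obtain ⟨e2, he2, hQe2, h2⟩ := ord2 _ hQ
  have h12 : e1 ≠ e2 := by
    intro h
    subst h
    apply hQP
    rw [hQe2, ← hPe1]
    exact AddSubgroup.mem_zmultiples P
  obtain ⟨i, hi⟩ := int_root h1
  obtain ⟨j, hj⟩ := int_root h2
  rw [hi] at h1
  rw [hj] at h2
  have h1' : i ^ 3 + A * i + B = 0 := by exact_mod_cast h1
  have h2' : j ^ 3 + A * j + B = 0 := by exact_mod_cast h2
  have hij : i ≠ j := fun h => h12 (by rw [hi, hj, h])
  have hA : A = -(i ^ 2 + i * j + j ^ 2) := by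
    have : (i - j) * (i ^ 2 + i * j + j ^ 2 + A) = 0 := by linear_combination h1' - h2'
    have := (mul_eq_zero.mp this).resolve_left (sub_ne_zero.mpr hij)
    linarith
  have hB : B = i * j * (i + j) := by
    rw [hA] at h1'
    linear_combination h1'
  exact ⟨i, j, hA, hB⟩

theorem root_le {i j : ℤ} {H : ℕ} (h : 4 * |-(i ^ 2 + i * j + j ^ 2)| ^ 3 ≤ (H : ℤ)) :
    (i.natAbs : ℤ) ^ 6 ≤ H := by
  have h0 : 0 ≤ i ^ 2 + i * j + j ^ 2 := by nlinarith [sq_nonneg (i + j), sq_nonneg i, sq_nonneg j]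
  rw [abs_neg, abs_of_nonneg h0] at h
  have h1 : 3 * i ^ 2 ≤ 4 * (i ^ 2 + i * j + j ^ 2) := by nlinarith [sq_nonneg (i + 2 * j)]
  have h2 : (3 * i ^ 2) ^ 3 ≤ (4 * (i ^ 2 + i * j + j ^ 2)) ^ 3 :=
    pow_le_pow_left₀ (by positivity) h1 3
  have h3 : (i.natAbs : ℤ) ^ 6 = (i ^ 2) ^ 3 := by
    rw [show (6 : ℕ) = 2 * 3 from rfl, pow_mul, Int.natAbs_sq]
  rw [h3]
  have h4 : (3 * i ^ 2) ^ 3 = 27 * (i ^ 2) ^ 3 := by ring
  have h5 : (4 * (i ^ 2 + i * j + j ^ 2)) ^ 3 = 16 * (4 * (i ^ 2 + i * j + j ^ 2) ^ 3) := by ring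
  have h6 : 0 ≤ (i ^ 2) ^ 3 := by positivity
  rw [h4, h5] at h2
  linarith

/-- the number of the curves with full 2-torsion of height at most `H` -/
theorem card2 : ∃ K : ℝ, ∀ H : ℕ, ((Cv 2 H).card : ℝ) ≤ K * ((H : ℝ) + 1) ^ ((1 : ℝ) / 3) := by
  classical
  refine ⟨9, fun H => ?_⟩
  have hH : (0 : ℝ) ≤ (H : ℝ) + 1 := by positivity
  set y : ℝ := ((H : ℝ) + 1) ^ ((1 : ℝ) / 6) with hy
  have hy0 : 0 ≤ y := Real.rpow_nonneg hH _
  have hy1 : 1 ≤ y := Real.one_le_rpow (by linarith [(Nat.cast_nonneg H : (0 : ℝ) ≤ H)])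
    (by norm_num)
  have hy2 : y ^ 2 = ((H : ℝ) + 1) ^ ((1 : ℝ) / 3) := by
    rw [hy, ← Real.rpow_natCast, ← Real.rpow_mul hH]
    norm_num
  have hy6 : y ^ 6 = (H : ℝ) + 1 := by
    rw [hy, ← Real.rpow_natCast, ← Real.rpow_mul hH]
    norm_num
  set R : ℕ := ⌊y⌋₊ with hR
  have hRy : (R : ℝ) ≤ y := Nat.floor_le hy0
  have key : ∀ i : ℤ, (i.natAbs : ℤ) ^ 6 ≤ H → i ∈ Icc (-(R : ℤ)) R := by
    intro i hi
    have h1 : (i.natAbs : ℝ) ^ 6 ≤ H := by exact_mod_cast hi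
    have h2 : (i.natAbs : ℝ) ≤ y := by
      refine le_of_pow_le_pow_left₀ (n := 6) (by norm_num) hy0 ?_
      rw [hy6]
      linarith
    have h3 : i.natAbs ≤ R := Nat.le_floor h2
    rw [mem_Icc]
    omega
  have hsub : Cv 2 H ⊆ (Icc (-(R : ℤ)) R ×ˢ Icc (-(R : ℤ)) R).image
      (fun t : ℤ × ℤ => (-(t.1 ^ 2 + t.1 * t.2 + t.2 ^ 2), t.1 * t.2 * (t.1 + t.2))) := by
    intro c hc
    unfold Cv at hc
    obtain ⟨_, _, h4, _, _, hT⟩ := mem_filter.1 hc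
    obtain ⟨i, j, hA, hB⟩ := two_roots hT
    rw [mem_image]
    refine ⟨(i, j), mem_product.2 ⟨key i ?_, key j ?_⟩, ?_⟩
    · rw [hA] at h4
      exact root_le h4
    · rw [hA] at h4
      refine root_le (i := j) (j := i) ?_
      rw [show j ^ 2 + j * i + i ^ 2 = i ^ 2 + i * j + j ^ 2 by ring]
      exact h4
    · exact Prod.ext hA.symm hB.symm
  have hcard := (card_le_card hsub).trans card_image_le
  rw [card_product, Int.card_Icc] at hcard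
  have e : ((R : ℤ) + 1 - -(R : ℤ)).toNat = 2 * R + 1 := by omega
  rw [e] at hcard
  have h1 : ((Cv 2 H).card : ℝ) ≤ (2 * R + 1) * (2 * R + 1) := by exact_mod_cast hcard
  have h2 : (2 * (R : ℝ) + 1) ≤ 3 * y := by linarith
  have h3 : (0 : ℝ) ≤ 2 * (R : ℝ) + 1 := by positivity
  rw [← hy2]
  nlinarith [mul_le_mul h2 h2 h3 (by linarith : (0 : ℝ) ≤ 3 * y)]

end Pool.Agent.N756.EC
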